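import Pool.Agent.PFE.StmtsE2c

/-! PFE, row OPC: the `V × V`-frame of the complement of `F V`. -/

set_option autoImplicit false

open scoped BigOperators

noncomputable section

namespace Pool.Agent.PFE.H13

open Pool.Agent.PFE Pool.Agent.PFD Pool.Agent.PFD.D2 Pool.Agent.PFD.D2b
open Pool.Agent.PFC (tw)

section

variable {F V E : Type} [Field F] [CommGroup V] [Fintype V] [Group E] [Fintype E]

/-- the new points -/
def PP (V E : Type) [Group E] : Type := {e : E // e ≠ 1} × V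

instance instFintypePP (V E : Type) [Group E] [Fintype V] [Fintype E] : Fintype (PP V E) := by
  classical
  exact inferInstanceAs (Fintype ({e : E // e ≠ 1} × V))

/-- the action -/
def actPP (φ : E →* MulAut V) : MulAction (V × V) (PP V E) where
  smul w p := (p.1, w.1 * p.2 * (φ p.1 w.2)⁻¹)
  one_smul p := by
    show (p.1, (1 : V) * p.2 * (φ p.1 (1 : V))⁻¹) = p
    rw [map_one, inv_one, mul_one, one_mul]
    rfl
  mul_smul w w' p := by
    show (p.1, (w.1 * w'.1) * p.2 * (φ p.1 (w.2 * w'.2))⁻¹) =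
      (p.1, w.1 * (w'.1 * p.2 * (φ p.1 w'.2)⁻¹) * (φ p.1 w.2)⁻¹)
    refine Prod.ext rfl ?_
    show (w.1 * w'.1) * p.2 * (φ p.1 (w.2 * w'.2))⁻¹ =
      w.1 * (w'.1 * p.2 * (φ p.1 w'.2)⁻¹) * (φ p.1 w.2)⁻¹
    rw [map_mul, mul_inv_rev]
    simp only [mul_assoc]

theorem n_vv (φ : E →* MulAut V) (z : Coc F E) (e : E) (v : V) :
    CP.n (D0 φ z) e * vv φ z v = vv φ z (φ e v) * CP.n (D0 φ z) e := by
  show CP.n (D0 φ z) e * CP.iS (D0 φ z) (MonoidAlgebra.of F V v) =
    CP.iS (D0 φ z) (MonoidAlgebra.of F V (φ e v)) * CP.n (D0 φ z) e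
  rw [CP.n_mul_iS]
  have h : (D0 φ z).act e (MonoidAlgebra.of F V v) = MonoidAlgebra.of F V (φ e v) :=
    acV_single F φ e v 1
  rw [h]

theorem vv_mul_f (φ : E →* MulAut V) (z : Coc F E) (u : V) (c : CP (D0 φ z)) (e : E) :
    (vv φ z u * c).f e = MonoidAlgebra.of F V u * c.f e := by
  show (CP.sn (D0 φ z) (MonoidAlgebra.of F V u) 1 * c).f e = _
  rw [CP.sn_mul_f, inv_one, one_mul, (D0 φ z).one_left, map_one, Units.val_one, one_smul]
  rfl

theorem mul_vv_f (φ : E →* MulAut V) (z : Coc F E) (v : V) (c : CP (D0 φ z)) (e : E) :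
    (c * vv φ z v).f e = c.f e * MonoidAlgebra.of F V (φ e v) := by
  have h : (D0 φ z).act e (MonoidAlgebra.of F V v) = MonoidAlgebra.of F V (φ e v) :=
    acV_single F φ e v 1
  show (c * CP.sn (D0 φ z) (MonoidAlgebra.of F V v) 1).f e = _
  rw [CP.mul_f]
  have h2 : ∀ x ∈ Finset.univ, x ≠ e →
      ((D0 φ z).c x (x⁻¹ * e) : F) • (c.f x * (D0 φ z).act x
        ((CP.sn (D0 φ z) (MonoidAlgebra.of F V v) 1).f (x⁻¹ * e))) = 0 := by
    intro x _ hx
    rw [CP.sn_f, if_neg, map_zero, mul_zero, smul_zero]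
    intro h3
    exact hx (inv_mul_eq_one.mp h3)
  rw [Finset.sum_eq_single e h2 (fun hh => absurd (Finset.mem_univ _) hh), inv_mul_cancel,
    (D0 φ z).one_right, CP.sn_f, if_pos rfl, Units.val_one, one_smul, h]

theorem sum_of' (x : MonoidAlgebra F V) : ∑ v, x.coeff v • MonoidAlgebra.of F V v = x := by
  classical
  apply MonoidAlgebra.coeff_injective
  ext w
  rw [MonoidAlgebra.coeff_sum, Finsupp.finsetSum_apply]
  rw [Finset.sum_eq_single w]
  · rw [MonoidAlgebra.coeff_smul_apply, MonoidAlgebra.of_apply, MonoidAlgebra.coeff_single,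
      Finsupp.single_eq_same, smul_eq_mul, mul_one]
  · intro b _ hb
    rw [MonoidAlgebra.coeff_smul_apply, MonoidAlgebra.of_apply, MonoidAlgebra.coeff_single,
      Finsupp.single_eq_of_ne (Ne.symm hb), smul_zero]
  · intro h
    exact absurd (Finset.mem_univ _) h

end

theorem opc : OpcStmt := by
  classical
  intro F V E A _ _ _ _ _ _ _ φ NN z T pv h1 h2 h3
  let i1 := T.fOm
  let i2 := T.aOm
  let i3 := actPP (V := V) (E := E) φ
  let κ : CP (D0 φ z) →ₗ[F] A :=
    T.j.toLinearMap ∘ₗ (LinearMap.id - (CP.iS (D0 φ z)).toLinearMap ∘ₗ pv)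
  have hκ : ∀ γ, κ γ = T.j (γ - CP.iS (D0 φ z) (pv γ)) := fun γ => rfl
  have hκ1 : ∀ s γ, κ (CP.iS (D0 φ z) s * γ) = T.j (CP.iS (D0 φ z) s) * κ γ := by
    intro s γ
    rw [hκ, hκ, h2, map_mul (CP.iS (D0 φ z)), ← mul_sub, map_mul]
  have hκ2 : ∀ s γ, κ (γ * CP.iS (D0 φ z) s) = κ γ * T.j (CP.iS (D0 φ z) s) := by
    intro s γ
    rw [hκ, hκ, h3, map_mul (CP.iS (D0 φ z)), ← sub_mul, map_mul]
  have hκ0 : ∀ s, κ (CP.iS (D0 φ z) s) = 0 := by
    intro s
    rw [hκ, h1, sub_self, map_zero]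
  let b' : PP V E → A := fun p => κ (vv φ z p.2 * CP.n (D0 φ z) p.1)
  let d' : PP V E → (A →ₗ[F] F) := fun p =>
    { toFun := fun a => ((T.pr a).f p.1).coeff p.2
      map_add' := fun a a' => by
        rw [map_add]
        rfl
      map_smul' := fun r a => by
        rw [map_smul]
        rfl }
  refine ⟨T.Om ⊕ PP V E, inferInstance, inferInstance, Sum.elim T.b b', Sum.elim T.d d',
    ?_, ?_, ?_, ?_⟩
  · rintro w (ω | p)
    · exact T.b_eq w ω
    · show κ (vv φ z (w.1 * p.2 * (φ p.1 w.2)⁻¹) * CP.n (D0 φ z) p.1) =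
        T.j (vv φ z w.1) * κ (vv φ z p.2 * CP.n (D0 φ z) p.1) * T.j (vv φ z w.2⁻¹)
      have e1 : vv φ z (w.1 * p.2 * (φ p.1 w.2)⁻¹) * CP.n (D0 φ z) p.1 =
          vv φ z w.1 * (vv φ z p.2 * CP.n (D0 φ z) p.1) * vv φ z w.2⁻¹ := by
        rw [mul_assoc (vv φ z w.1), mul_assoc (vv φ z p.2), n_vv, map_inv (φ p.1), map_mul,
          map_mul]
        simp only [mul_assoc]
      rw [e1]
      have e2 : κ (vv φ z w.1 * (vv φ z p.2 * CP.n (D0 φ z) p.1) * vv φ z w.2⁻¹) =
          κ (vv φ z w.1 * (vv φ z p.2 * CP.n (D0 φ z) p.1)) * T.j (vv φ z w.2⁻¹) := hκ2 _ _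
      have e3 : κ (vv φ z w.1 * (vv φ z p.2 * CP.n (D0 φ z) p.1)) =
          T.j (vv φ z w.1) * κ (vv φ z p.2 * CP.n (D0 φ z) p.1) := hκ1 _ _
      rw [e2, e3]
  · rintro w (ω | p) a
    · exact T.d_eq w ω a
    · show ((T.pr (T.j (vv φ z w.1) * a * T.j (vv φ z w.2⁻¹))).f p.1).coeff
        (w.1 * p.2 * (φ p.1 w.2)⁻¹) = ((T.pr a).f p.1).coeff p.2
      rw [T.pr_r, T.pr_l, mul_vv_f, vv_mul_f, MonoidAlgebra.of_apply, MonoidAlgebra.of_apply,
        MonoidAlgebra.coeff_mul_single_apply, MonoidAlgebra.coeff_single_mul_apply, mul_one,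
        one_mul, map_inv]
      congr 1
      group
  · intro a
    rw [Fintype.sum_sum_type]
    have e1 : ∑ ω : T.Om, (Sum.elim T.d d' (Sum.inl ω)) a • Sum.elim T.b b' (Sum.inl ω) =
        a - T.j (T.pr a) := T.sum a
    rw [e1]
    have e2 : ∑ p : PP V E, (Sum.elim T.d d' (Sum.inr p)) a • Sum.elim T.b b' (Sum.inr p) =
        κ (T.pr a) := by
      have e3 : ∑ p : PP V E, (Sum.elim T.d d' (Sum.inr p)) a • Sum.elim T.b b' (Sum.inr p) =
          ∑ e : {e : E // e ≠ 1}, ∑ v : V, (((T.pr a).f e).coeff v) •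
            κ (vv φ z v * CP.n (D0 φ z) e) := by
        rw [← Fintype.sum_prod_type']
        rfl
      rw [e3]
      have e4 : ∀ e : E, ∑ v : V, (((T.pr a).f e).coeff v) •
          κ (vv φ z v * CP.n (D0 φ z) e) =
          κ (CP.iS (D0 φ z) ((T.pr a).f e) * CP.n (D0 φ z) e) := by
        intro e
        conv_rhs => rw [← sum_of' ((T.pr a).f e)]
        rw [map_sum, Finset.sum_mul, map_sum]
        refine Finset.sum_congr rfl fun v _ => ?_
        rw [map_smul, smul_mul_assoc, map_smul]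
        rfl
      have e5 : ∑ e : {e : E // e ≠ 1}, ∑ v : V, (((T.pr a).f e).coeff v) •
            κ (vv φ z v * CP.n (D0 φ z) e) =
          ∑ e : {e : E // e ≠ 1}, κ (CP.iS (D0 φ z) ((T.pr a).f e) * CP.n (D0 φ z) e) :=
        Finset.sum_congr rfl fun e _ => e4 e
      rw [e5]
      have e6 := Fintype.sum_eq_add_sum_subtype_ne
        (fun e : E => κ (CP.iS (D0 φ z) ((T.pr a).f e) * CP.n (D0 φ z) e)) (1 : E)
      rw [← map_sum, CP.sum_iS_n, CP.n_one, mul_one, hκ0, zero_add] at e6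
      exact e6.symm
    rw [e2, hκ, map_sub]
    abel
  · rintro (ω | p)
    · obtain ⟨e, R, hR, hst⟩ := T.st ω
      refine ⟨e, R, Or.inl hR, ?_⟩
      rw [← hst]
      ext w
      rw [MulAction.mem_stabilizer_iff, MulAction.mem_stabilizer_iff, Sum.smul_inl,
        Sum.inl_injective.eq_iff]
    · refine ⟨p.1, ⊤, Or.inr rfl, ?_⟩
      ext w
      rw [MulAction.mem_stabilizer_iff, Sum.smul_inr, Sum.inr_injective.eq_iff]
      have e1 : w • p = p ↔ w.1 * p.2 * (φ p.1 w.2)⁻¹ = p.2 := by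
        constructor
        · intro h
          exact congrArg Prod.snd h
        · intro h
          exact Prod.ext rfl h
      rw [e1]
      unfold tw
      rw [Subgroup.mem_map]
      constructor
      · intro h
        refine ⟨w.2, Subgroup.mem_top _, ?_⟩
        refine Prod.ext ?_ rfl
        show φ p.1 w.2 = w.1
        rw [mul_inv_eq_iff_eq_mul, mul_comm] at h
        exact (mul_left_cancel h).symm
      · rintro ⟨v, _, hv⟩
        have e2 : φ p.1 v = w.1 := congrArg Prod.fst hv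
        have e3 : v = w.2 := congrArg Prod.snd hv
        rw [← e2, ← e3, mul_comm (φ p.1 v), mul_assoc, mul_inv_cancel, mul_one]

end Pool.Agent.PFE.H13
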