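import Pool.Agent.PFE.StmtsE2

/-! PFE, row YDR: the frame `Yd`. -/

set_option autoImplicit false

open scoped BigOperators

noncomputable section

namespace Pool.Agent.PFE.H13

open Pool.Agent.PFE Pool.Agent.PFD Pool.Agent.PFD.D2 Pool.Agent.PFD.D2b
open MulOpposite
open Pool.Agent.PFC.B1 (FS Split BiM Sep)

/-- the element which represents a linear form -/
def rep {R A J : Type} [CommRing R] [Ring A] [Algebra R A] [Fintype J] (d : FS R A J)
    (φ : A →ₗ[R] R) : A := ∑ p, φ (d.b p) • d.b' p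

theorem rep_lam {R A J : Type} [CommRing R] [Ring A] [Algebra R A] [Fintype J] (d : FS R A J)
    (φ : A →ₗ[R] R) (a : A) : d.lam (rep d φ * a) = φ a := by
  have h := congrArg φ (d.h1 a)
  rw [map_sum] at h
  unfold rep
  rw [Finset.sum_mul, map_sum, ← h]
  refine Finset.sum_congr rfl fun p _ => ?_
  rw [smul_mul_assoc, map_smul, map_smul, smul_eq_mul, smul_eq_mul, mul_comm]

theorem fs_nd {R A J : Type} [CommRing R] [Ring A] [Algebra R A] [Fintype J] (d : FS R A J)
    (x z : A) (h : ∀ a, d.lam (x * a) = d.lam (z * a)) : x = z := by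
  rw [← d.h2 x, ← d.h2 z]
  refine Finset.sum_congr rfl fun p _ => ?_
  rw [h]

theorem ydr : YdrStmt := by
  intro R F Γ Γ0 W A A1 X N J Ω Ω' _ _ c _ _ _ _ _ _ _ _ _ _ _ _ _ _ _ _ _ l G f χ j0 pr0 lz d
    hd hl hχ hun
  have hy : ∀ n : ℕ, lz.j (G.y ^ n) = lz.j G.y ^ n := fun n => map_pow _ _ _
  have hts : ∀ a b, d.lam (a * b) = d.lam (b * a) := by
    intro a b
    rw [hd]
    exact lz.ts a b
  refine ⟨{
    hl := hl
    χl := hχ
    χu := hun
    yl := by rw [← hy, G.yl, map_zero]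
    d := d
    ds := hts
    deg := lz.fr.deg
    g := lz.fr.g
    g' := fun o => rep d (lz.fr.c o)
    gy := fun o => lz.fr.gy o
    g'y := ?_
    h := lz.fr.h
    h' := fun o => rep d (lz.fr.d o)
    fr := ?_ }, rfl, rfl, rfl, rfl, ?_, ?_⟩
  · intro o
    apply fs_nd d
    intro a
    have h1 : lz.fr.c o (lz.j G.y * a) = χ (lz.fr.deg o) * lz.fr.c o (a * lz.j G.y) :=
      lz.fr.cy o a
    rw [mul_assoc, rep_lam, h1, smul_mul_assoc, map_smul, smul_eq_mul, mul_assoc (lz.j G.y),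
      hts (lz.j G.y), mul_assoc (rep d (lz.fr.c o)), rep_lam]
  · intro a
    have h := lz.fr.fr a
    have h1 : (LinearMap.id : A1 →ₗ[R] A1) a = a := rfl
    rw [h1] at h
    refine Eq.trans ?_ h
    refine congrArg₂ (· + ·) ?_ ?_
    · refine Finset.sum_congr rfl fun o _ => ?_
      refine Finset.sum_congr rfl fun i _ => ?_
      have e1 : (AB lz.j).lm (G.y ^ (l - 1 - i)) a = lz.j G.y ^ (l - 1 - i) * a := by
        rw [← hy]
        rfl
      have e2 : (AB lz.j).lm (G.y ^ i) (lz.fr.g o) = lz.j G.y ^ i * lz.fr.g o := by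
        rw [← hy]
        rfl
      rw [e1, e2, mul_assoc, rep_lam]
    · refine Finset.sum_congr rfl fun o _ => ?_
      refine Finset.sum_congr rfl fun i _ => ?_
      refine Finset.sum_congr rfl fun k _ => ?_
      have e1 : (AB lz.j).lm (G.y ^ (l - 1 - i)) ((AB lz.j).rm (op (G.y ^ (l - 1 - k))) a) =
          lz.j G.y ^ (l - 1 - i) * a * lz.j G.y ^ (l - 1 - k) := by
        rw [← hy, ← hy, mul_assoc]
        rfl
      have e2 : (AB lz.j).lm (G.y ^ i) ((AB lz.j).rm (op (G.y ^ k)) (lz.fr.h o)) =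
          lz.j G.y ^ i * lz.fr.h o * lz.j G.y ^ k := by
        rw [← hy, ← hy, mul_assoc]
        rfl
      rw [e1, e2, rep_lam]
  · intro o a
    exact rep_lam d (lz.fr.c o) a
  · intro o a
    exact rep_lam d (lz.fr.d o) a

end Pool.Agent.PFE.H13
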