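import Pool.Agent.PFE.StmtsE2c

/-! PFE, row YFT: the frame of the complement of `F V` in `A`. -/

set_option autoImplicit false

open scoped BigOperators

noncomputable section

namespace Pool.Agent.PFE.H13

open Pool.Agent.PFE Pool.Agent.PFD Pool.Agent.PFD.D2 Pool.Agent.PFD.D2b
open Pool.Agent.PFC (tw)

theorem stab_smul {G Om : Type} [CommGroup G] [MulAction G Om] (w : G) (ω : Om) :
    MulAction.stabilizer G (w • ω) = MulAction.stabilizer G ω := by
  ext g
  rw [MulAction.mem_stabilizer_iff, MulAction.mem_stabilizer_iff, smul_smul, mul_comm,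
    ← smul_smul]
  exact (MulAction.injective w).eq_iff

/-- the set of the points whose stabiliser has the property `p` -/
def subS {G Om : Type} [CommGroup G] [MulAction G Om] (p : Subgroup G → Prop) :
    SubMulAction G Om where
  carrier := {ω | p (MulAction.stabilizer G ω)}
  smul_mem' := by
    intro w ω h
    show p (MulAction.stabilizer G (w • ω))
    rw [stab_smul]
    exact h

theorem stab_sub {G Om : Type} [CommGroup G] [MulAction G Om] (S : SubMulAction G Om)
    (ω : S) : MulAction.stabilizer G ω = MulAction.stabilizer G (ω : Om) := by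
  ext g
  rw [MulAction.mem_stabilizer_iff, MulAction.mem_stabilizer_iff]
  constructor
  · intro h
    exact congrArg Subtype.val h
  · intro h
    exact Subtype.ext h

theorem yft (hA : YfaStmt) (hB : YfbStmt) (hS : FrsStmt) : YftStmt := by
  classical
  intro ℓ hℓ F V E V1 C A N K Om _ _ _ _ _ _ _ _ _ _ _ _ _ _ φ NN i W _ Y G θ T hc hi h1 h2 h3
    h4 h5 h6 h7
  have hl1 : 1 ≤ ℓ := hℓ.out.one_lt.le
  let p : Subgroup (V × V) → Prop := fun S =>
    ∃ (e : E) (R : Subgroup V), i.range ≤ R ∧ S = tw (φ e).toMonoidHom R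
  let SA : SubMulAction (V × V) Om := subS p
  let SB : SubMulAction (V × V) Om := subS (fun S => ¬ p S)
  have hstA : ∀ ω : SA, ∃ (e : E) (R : Subgroup V), i.range ≤ R ∧
      MulAction.stabilizer (V × V) ω = tw (φ e).toMonoidHom R := by
    intro ω
    rw [stab_sub]
    exact ω.2
  have hcr : Nat.card i.range = ℓ := by
    rw [← hc]
    exact (Nat.card_congr (MonoidHom.ofInjective hi).toEquiv).symm
  have hstB : ∀ ω : SB, ∃ (e : E) (R : Subgroup V), R ≤ W ∧
      MulAction.stabilizer (V × V) ω = tw (φ e).toMonoidHom R := by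
    intro ω
    obtain ⟨e, R, hR, hst⟩ := T.st (ω : Om)
    have hnot : ¬ i.range ≤ R := fun h => ω.2 ⟨e, R, h, hst⟩
    refine ⟨e, R, ?_, by rw [stab_sub]; exact hst⟩
    rcases hR with hR | hR
    · rcases h5 R hR with h | h
      · have hd : Nat.card R ∣ ℓ := by
          rw [← hcr]
          exact Subgroup.card_dvd_of_le h
        rcases (Nat.dvd_prime hℓ.out).mp hd with h8 | h8
        · have : R = ⊥ := Subgroup.card_eq_one.mp h8
          rw [this]
          exact bot_le
        · exfalso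
          apply hnot
          have h9 : R = i.range := by
            apply Subgroup.eq_of_le_of_card_ge h
            rw [h8, hcr]
          rw [h9]
      · exact h
    · exact absurd (by rw [hR]; exact le_top) hnot
  obtain ⟨Ω1, Ω1', j1, j2, j3, j4, ⟨f1⟩⟩ := hA F V E V1 C A SA φ i W ℓ Y G θ T.j
    (fun ω => T.b ω) (fun ω => T.d ω) hl1 hi h1 h2 h3 h4 h6 h7 (fun w ω => T.b_eq w ω)
    (fun w ω a => T.d_eq w ω a) hstA
  obtain ⟨Ω2, Ω2', k1, k2, k3, k4, ⟨f2⟩⟩ := hB F V E V1 C A SB φ i W ℓ Y G θ T.j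
    (fun ω => T.b ω) (fun ω => T.d ω) hl1 hi h1 h2 h3 h6 h7 (fun w ω => T.b_eq w ω)
    (fun w ω a => T.d_eq w ω a) hstB
  have h := hS F (MonoidAlgebra F V) W A C Ω1 Ω1' Ω2 Ω2' ℓ G (Y.χ.comp θ) (AB T.j) _ _ f1 f2
  have hsum : (∑ ω : SA, (T.d ω).smulRight (T.b ω)) + (∑ ω : SB, (T.d ω).smulRight (T.b ω)) =
      LinearMap.id - T.j.toLinearMap ∘ₗ T.pr := by
    have e1 : (∑ ω : SA, (T.d ω).smulRight (T.b ω)) + (∑ ω : SB, (T.d ω).smulRight (T.b ω)) =
        ∑ ω : Om, (T.d ω).smulRight (T.b ω) := by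
      rw [← Finset.sum_filter_add_sum_filter_not Finset.univ (fun ω : Om => ω ∈ SA)
        (fun ω : Om => (T.d ω).smulRight (T.b ω))]
      refine congrArg₂ (· + ·) ?_ ?_
      · refine (Finset.sum_subtype (p := fun ω : Om => ω ∈ SA)
          (Finset.univ.filter (fun ω : Om => ω ∈ SA)) ?_ (fun ω => (T.d ω).smulRight (T.b ω))).symm
        intro x
        rw [Finset.mem_filter]
        exact ⟨fun h => h.2, fun h => ⟨Finset.mem_univ _, h⟩⟩
      · refine (Finset.sum_subtype (p := fun ω : Om => ω ∈ SB)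
          (Finset.univ.filter (fun ω : Om => ¬ ω ∈ SA)) ?_
          (fun ω => (T.d ω).smulRight (T.b ω))).symm
        intro x
        rw [Finset.mem_filter]
        exact ⟨fun h => h.2, fun h => ⟨Finset.mem_univ _, h⟩⟩
    rw [e1]
    ext a
    rw [LinearMap.sum_apply]
    exact T.sum a
  rw [hsum] at h
  exact h

end Pool.Agent.PFE.H13
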